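import Mathlib

/-!
# MP_653f52_an : a marginally unstable switching system with logarithmic growth

With `L k = 1 + log (k+1)` the compact family consists of the identity and the matrices
`M k = [[1, L k * log (L (k+1) / L k)], [0, L k / L (k+1)]]` of size two.
-/

namespace Pool.Agent.Results.MP_653f52_an.LogGrowth

open Filter Topology

noncomputable section

/-- `x` is a trajectory of the discrete-time switching system of the family `𝒜`. -/
def IsTrajectory {d : ℕ} (𝒜 : Set (Matrix (Fin d) (Fin d) ℝ)) (x : ℕ → Fin d → ℝ) : Prop :=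
  ∃ A : ℕ → Matrix (Fin d) (Fin d) ℝ, (∀ k, A k ∈ 𝒜) ∧ ∀ k, x (k + 1) = (A k).mulVec (x k)

/-- Every trajectory of the system is bounded. -/
def BoundedSystem {d : ℕ} (𝒜 : Set (Matrix (Fin d) (Fin d) ℝ)) : Prop :=
  ∀ x, IsTrajectory 𝒜 x → ∃ C : ℝ, ∀ k, ‖x k‖ ≤ C

/-- The operator norm of a matrix, acting on `ℝ^d` with the maximum norm. -/
def opNorm {d : ℕ} (P : Matrix (Fin d) (Fin d) ℝ) : ℝ :=
  ‖LinearMap.toContinuousLinearMap (Matrix.mulVecLin P)‖

/-- The norms of all products of `k` elements of the family `𝒜`. -/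
def prodNorms {d : ℕ} (𝒜 : Set (Matrix (Fin d) (Fin d) ℝ)) (k : ℕ) : Set ℝ :=
  {r | ∃ l : List (Matrix (Fin d) (Fin d) ℝ), l.length = k ∧ (∀ A ∈ l, A ∈ 𝒜) ∧
    r = opNorm l.prod}

/-- `ρ` is the joint spectral radius of `𝒜`:
`ρ = lim_k (sup ‖A(k) ⋯ A(1)‖)^{1/k}`. -/
def HasJSR {d : ℕ} (𝒜 : Set (Matrix (Fin d) (Fin d) ℝ)) (ρ : ℝ) : Prop :=
  Tendsto (fun k : ℕ => (sSup (prodNorms 𝒜 k)) ^ (1 / (k : ℝ))) atTop (𝓝 ρ)

/-- The discrete-time system is marginally unstable: the joint spectral radius is one and the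
system is not bounded. -/
def MarginallyUnstable {d : ℕ} (𝒜 : Set (Matrix (Fin d) (Fin d) ℝ)) : Prop :=
  HasJSR 𝒜 1 ∧ ¬ BoundedSystem 𝒜

/-- Subpolynomial growth: `‖x(k)‖ = O(k^α)` for every trajectory and every `α > 0`. -/
def Subpolynomial {d : ℕ} (𝒜 : Set (Matrix (Fin d) (Fin d) ℝ)) : Prop :=
  ∀ x, IsTrajectory 𝒜 x → ∀ α : ℝ, 0 < α → ∃ C : ℝ, ∀ k : ℕ, 1 ≤ k → ‖x k‖ ≤ C * (k : ℝ) ^ α

/-! ### The family -/

/-- `L k = 1 + log (k+1)` -/
def L (k : ℕ) : ℝ := 1 + Real.log ((k : ℝ) + 1)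

lemma L_ge (k : ℕ) : 1 ≤ L k := by
  unfold L
  have : 0 ≤ Real.log ((k : ℝ) + 1) := Real.log_nonneg (by
    have : (0 : ℝ) ≤ k := Nat.cast_nonneg k
    linarith)
  linarith

lemma L_pos (k : ℕ) : 0 < L k := lt_of_lt_of_le one_pos (L_ge k)

lemma L_mono : Monotone L := by
  intro a b h
  unfold L
  have h1 : (a : ℝ) ≤ b := by exact_mod_cast h
  have h2 : (0 : ℝ) ≤ a := Nat.cast_nonneg a
  have := Real.log_le_log (by linarith : (0 : ℝ) < (a : ℝ) + 1) (by linarith : (a : ℝ) + 1 ≤ b + 1)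
  linarith

lemma L_sub_le (k : ℕ) : L (k + 1) - L k ≤ 1 / ((k : ℝ) + 1) := by
  unfold L
  have h2 : (0 : ℝ) < (k : ℝ) + 1 := by positivity
  have h3 : (0 : ℝ) < (k : ℝ) + 1 + 1 := by positivity
  push_cast
  have h : Real.log ((k : ℝ) + 1 + 1) - Real.log ((k : ℝ) + 1) =
      Real.log (((k : ℝ) + 1 + 1) / ((k : ℝ) + 1)) := (Real.log_div h3.ne' h2.ne').symm
  have h4 := Real.log_le_sub_one_of_pos (div_pos h3 h2)
  have h5 : ((k : ℝ) + 1 + 1) / ((k : ℝ) + 1) - 1 = 1 / ((k : ℝ) + 1) := by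
    field_simp
    ring
  linarith

/-- the coupling coefficient -/
def s (k : ℕ) : ℝ := L k * Real.log (L (k + 1) / L k)

/-- the damping coefficient -/
def dl (k : ℕ) : ℝ := 1 - L k / L (k + 1)

lemma s_nonneg (k : ℕ) : 0 ≤ s k := by
  unfold s
  apply mul_nonneg (L_pos k).le
  apply Real.log_nonneg
  rw [le_div_iff₀ (L_pos k), one_mul]
  exact L_mono (Nat.le_succ k)

lemma s_le_sub (k : ℕ) : s k ≤ L (k + 1) - L k := by
  unfold s
  have h := Real.log_le_sub_one_of_pos (div_pos (L_pos (k + 1)) (L_pos k))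
  have h1 : L k * Real.log (L (k + 1) / L k) ≤ L k * (L (k + 1) / L k - 1) :=
    mul_le_mul_of_nonneg_left h (L_pos k).le
  have h2 : L k * (L (k + 1) / L k - 1) = L (k + 1) - L k := by
    have := (L_pos k).ne'
    field_simp
  linarith

lemma s_le (k : ℕ) : s k ≤ 1 / ((k : ℝ) + 1) := (s_le_sub k).trans (L_sub_le k)

lemma s_le_dl (k : ℕ) : s k ≤ L (k + 1) * dl k := by
  refine (s_le_sub k).trans (le_of_eq ?_)
  unfold dl
  have := (L_pos (k + 1)).ne'
  field_simp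

lemma dl_nonneg (k : ℕ) : 0 ≤ dl k := by
  unfold dl
  have : L k / L (k + 1) ≤ 1 := by
    rw [div_le_one (L_pos _)]
    exact L_mono (Nat.le_succ k)
  linarith

lemma dl_le_one (k : ℕ) : dl k ≤ 1 := by
  unfold dl
  have : 0 ≤ L k / L (k + 1) := div_nonneg (L_pos _).le (L_pos _).le
  linarith

lemma dl_le (k : ℕ) : dl k ≤ 1 / ((k : ℝ) + 1) := by
  have h : dl k ≤ L (k + 1) - L k := by
    have h1 : dl k = (L (k + 1) - L k) / L (k + 1) := by
      unfold dl
      have := (L_pos (k + 1)).ne'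
      field_simp
    rw [h1]
    exact div_le_self (sub_nonneg.2 (L_mono (Nat.le_succ k))) (L_ge _)
  exact h.trans (L_sub_le k)

/-- the matrices of the family -/
def M (k : ℕ) : Matrix (Fin 2) (Fin 2) ℝ := !![1, s k; 0, 1 - dl k]

/-- the family -/
def fam : Set (Matrix (Fin 2) (Fin 2) ℝ) := insert 1 (Set.range M)

lemma tendsto_inv : Tendsto (fun k : ℕ => 1 / ((k : ℝ) + 1)) atTop (𝓝 0) :=
  tendsto_one_div_add_atTop_nhds_zero_nat

lemma s_tendsto : Tendsto s atTop (𝓝 0) :=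
  squeeze_zero s_nonneg s_le tendsto_inv

lemma dl_tendsto : Tendsto dl atTop (𝓝 0) :=
  squeeze_zero dl_nonneg dl_le tendsto_inv

lemma M_tendsto : Tendsto M atTop (𝓝 1) := by
  refine tendsto_pi_nhds.2 fun i => tendsto_pi_nhds.2 fun j => ?_
  fin_cases i <;> fin_cases j
  · simp [M]
  · simpa [M] using s_tendsto
  · simp [M]
  · have := dl_tendsto.const_sub 1
    simpa [M] using this

lemma fam_compact : IsCompact fam := M_tendsto.isCompact_insert_range

/-- one step -/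
lemma step {A : Matrix (Fin 2) (Fin 2) ℝ} (hA : A ∈ fam) (n : ℕ) (w : Fin 2 → ℝ) :
    |(A.mulVec w) 0| ≤ |w 0| + 1 / ((n : ℝ) + 1) * |w 1| + L (n + 1) * (|w 1| - |(A.mulVec w) 1|) ∧
      |(A.mulVec w) 1| ≤ |w 1| := by
  have hn : (0 : ℝ) < (n : ℝ) + 1 := by positivity
  rcases hA with rfl | ⟨m, rfl⟩
  · rw [Matrix.one_mulVec]
    refine ⟨?_, le_rfl⟩
    have : 0 ≤ 1 / ((n : ℝ) + 1) * |w 1| := by positivity
    simp only [sub_self, mul_zero, add_zero]
    linarith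
  · have h0 : ((M m).mulVec w) 0 = w 0 + s m * w 1 := by
      simp [M, Matrix.mulVec, dotProduct, Fin.sum_univ_two]
    have h1 : ((M m).mulVec w) 1 = (1 - dl m) * w 1 := by
      simp [M, Matrix.mulVec, dotProduct, Fin.sum_univ_two]
    rw [h0, h1]
    have h2 : |(1 - dl m) * w 1| = (1 - dl m) * |w 1| := by
      rw [abs_mul, abs_of_nonneg (by linarith [dl_le_one m])]
    rw [h2]
    have h3 : |w 0 + s m * w 1| ≤ |w 0| + s m * |w 1| := by
      refine (abs_add_le _ _).trans ?_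
      rw [abs_mul, abs_of_nonneg (s_nonneg m)]
    have hw := abs_nonneg (w 1)
    have hd := dl_nonneg m
    refine ⟨?_, by nlinarith⟩
    by_cases hmn : n ≤ m
    · have h4 : s m ≤ 1 / ((n : ℝ) + 1) := by
        refine (s_le m).trans ?_
        apply one_div_le_one_div_of_le hn
        have : (n : ℝ) ≤ m := by exact_mod_cast hmn
        linarith
      have h5 : 0 ≤ L (n + 1) * (|w 1| - (1 - dl m) * |w 1|) := by
        apply mul_nonneg (L_pos _).le
        nlinarith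
      nlinarith
    · push Not at hmn
      have h4 : s m ≤ L (n + 1) * dl m := by
        refine (s_le_dl m).trans ?_
        exact mul_le_mul_of_nonneg_right (L_mono (by omega)) hd
      have h5 : 0 ≤ 1 / ((n : ℝ) + 1) * |w 1| := by positivity
      have h6 : L (n + 1) * (|w 1| - (1 - dl m) * |w 1|) = (L (n + 1) * dl m) * |w 1| := by ring
      rw [h6]
      nlinarith

/-- the growth function -/
def G (k : ℕ) : ℝ := 2 + L (k + 1)

lemma norm_le_of_bounds {k : ℕ} {v w : Fin 2 → ℝ}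
    (h0 : |w 0| ≤ |v 0| + (k : ℝ) / ((k : ℝ) + 1) * |v 1| + L (k + 1) * (|v 1| - |w 1|))
    (h1 : |w 1| ≤ |v 1|) : ‖w‖ ≤ G k * ‖v‖ := by
  have hv0 : |v 0| ≤ ‖v‖ := norm_le_pi_norm v 0
  have hv1 : |v 1| ≤ ‖v‖ := norm_le_pi_norm v 1
  have hv := norm_nonneg v
  have hL := L_ge (k + 1)
  have hk : (k : ℝ) / ((k : ℝ) + 1) ≤ 1 := by
    rw [div_le_one (by positivity)]
    linarith
  have hk0 : 0 ≤ (k : ℝ) / ((k : ℝ) + 1) := by positivity
  have hw1 := abs_nonneg (w 1)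
  have hv1' := abs_nonneg (v 1)
  have hG : 0 ≤ G k * ‖v‖ := by
    unfold G
    positivity
  rw [pi_norm_le_iff_of_nonneg hG]
  intro i
  unfold G
  fin_cases i
  · show |w 0| ≤ _
    have e1 : (k : ℝ) / ((k : ℝ) + 1) * |v 1| ≤ 1 * ‖v‖ := mul_le_mul hk hv1 hv1' zero_le_one
    have e2 : L (k + 1) * (|v 1| - |w 1|) ≤ L (k + 1) * ‖v‖ :=
      mul_le_mul_of_nonneg_left (by linarith) (by linarith)
    nlinarith
  · show |w 1| ≤ _
    nlinarith

lemma list_bound (n : ℕ) (l : List (Matrix (Fin 2) (Fin 2) ℝ)) (hl : ∀ A ∈ l, A ∈ fam)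
    (v : Fin 2 → ℝ) :
    |(l.prod.mulVec v) 0| ≤ |v 0| + (l.length : ℝ) / ((n : ℝ) + 1) * |v 1| +
        L (n + 1) * (|v 1| - |(l.prod.mulVec v) 1|) ∧
      |(l.prod.mulVec v) 1| ≤ |v 1| := by
  induction l with
  | nil => simp
  | cons A l ih =>
    have ih' := ih (fun B hB => hl B (List.mem_cons_of_mem _ hB))
    have hA := hl A List.mem_cons_self
    rw [List.prod_cons, ← Matrix.mulVec_mulVec]
    have h := step hA n (l.prod.mulVec v)
    refine ⟨?_, h.2.trans ih'.2⟩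
    refine h.1.trans ?_
    have h3 : 1 / ((n : ℝ) + 1) * |(l.prod.mulVec v) 1| ≤ 1 / ((n : ℝ) + 1) * |v 1| :=
      mul_le_mul_of_nonneg_left ih'.2 (by positivity)
    have h4 : ((A :: l).length : ℝ) / ((n : ℝ) + 1) * |v 1| =
        (l.length : ℝ) / ((n : ℝ) + 1) * |v 1| + 1 / ((n : ℝ) + 1) * |v 1| := by
      rw [List.length_cons]; push_cast; ring
    rw [h4]
    nlinarith [ih'.1]

lemma traj_bound (n : ℕ) {x : ℕ → Fin 2 → ℝ} (hx : IsTrajectory fam x) (k : ℕ) :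
    |x k 0| ≤ |x 0 0| + (k : ℝ) / ((n : ℝ) + 1) * |x 0 1| +
        L (n + 1) * (|x 0 1| - |x k 1|) ∧ |x k 1| ≤ |x 0 1| := by
  obtain ⟨A, hA, hx⟩ := hx
  induction k with
  | zero => simp
  | succ k ih =>
    rw [hx k]
    have h := step (hA k) n (x k)
    refine ⟨?_, h.2.trans ih.2⟩
    refine h.1.trans ?_
    have h3 : 1 / ((n : ℝ) + 1) * |x k 1| ≤ 1 / ((n : ℝ) + 1) * |x 0 1| :=
      mul_le_mul_of_nonneg_left ih.2 (by positivity)
    have h4 : ((k + 1 : ℕ) : ℝ) / ((n : ℝ) + 1) * |x 0 1| =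
        (k : ℝ) / ((n : ℝ) + 1) * |x 0 1| + 1 / ((n : ℝ) + 1) * |x 0 1| := by
      push_cast; ring
    rw [h4]
    nlinarith [ih.1]

lemma traj_norm {x : ℕ → Fin 2 → ℝ} (hx : IsTrajectory fam x) (k : ℕ) :
    ‖x k‖ ≤ G k * ‖x 0‖ :=
  norm_le_of_bounds (traj_bound k hx k).1 (traj_bound k hx k).2

lemma G_le (k : ℕ) : G k ≤ 4 * (1 + Real.log ((k : ℝ) + 1)) := by
  unfold G
  have h := L_sub_le k
  have h1 : 1 / ((k : ℝ) + 1) ≤ 1 := by
    rw [div_le_one (by positivity)]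
    have : (0 : ℝ) ≤ k := Nat.cast_nonneg k
    linarith
  have h2 := L_ge k
  have h3 : L k = 1 + Real.log ((k : ℝ) + 1) := rfl
  rw [← h3]
  linarith

lemma list_norm (k : ℕ) (l : List (Matrix (Fin 2) (Fin 2) ℝ)) (hk : l.length = k)
    (hl : ∀ A ∈ l, A ∈ fam) : opNorm l.prod ≤ G k := by
  unfold opNorm
  have hG : 0 ≤ G k := by
    unfold G
    have := L_pos (k + 1)
    positivity
  refine ContinuousLinearMap.opNorm_le_bound _ hG (fun v => ?_)
  have h := list_bound k l hl v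
  rw [hk] at h
  exact norm_le_of_bounds h.1 h.2

lemma opNorm_one : opNorm (1 : Matrix (Fin 2) (Fin 2) ℝ) = 1 := by
  unfold opNorm
  rw [Matrix.mulVecLin_one]
  exact ContinuousLinearMap.norm_id

lemma prodNorms_bdd (k : ℕ) : BddAbove (prodNorms fam k) := by
  refine ⟨G k, ?_⟩
  rintro r ⟨l, hk, hl, rfl⟩
  exact list_norm k l hk hl

lemma one_mem (k : ℕ) : (1 : ℝ) ∈ prodNorms fam k := by
  refine ⟨List.replicate k 1, by simp, ?_, ?_⟩
  · intro A hA
    rw [List.eq_of_mem_replicate hA]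
    exact Set.mem_insert _ _
  · rw [List.prod_replicate, one_pow, opNorm_one]

lemma sSup_ge (k : ℕ) : 1 ≤ sSup (prodNorms fam k) := le_csSup (prodNorms_bdd k) (one_mem k)

lemma sSup_le (k : ℕ) : sSup (prodNorms fam k) ≤ (k : ℝ) + 4 := by
  refine (csSup_le ⟨1, one_mem k⟩ ?_ : sSup (prodNorms fam k) ≤ G k).trans ?_
  · rintro r ⟨l, hk, hl, rfl⟩
    exact list_norm k l hk hl
  · unfold G L
    have h := Real.log_le_sub_one_of_pos (by positivity : (0 : ℝ) < ((k + 1 : ℕ) : ℝ) + 1)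
    push_cast at h ⊢
    linarith

lemma hasJSR : HasJSR fam 1 := by
  unfold HasJSR
  have h1 : Tendsto (fun k : ℕ => ((k : ℝ) + 4) ^ (1 / (k : ℝ))) atTop (𝓝 1) := by
    have h2 := tendsto_rpow_div_mul_add 1 1 (-4) zero_ne_one
    have h3 : Tendsto (fun k : ℕ => (k : ℝ) + 4) atTop atTop :=
      tendsto_atTop_add_const_right _ _ tendsto_natCast_atTop_atTop
    have h4 := h2.comp h3
    refine h4.congr (fun k => ?_)
    simp only [Function.comp]
    congr 2
    ring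
  refine tendsto_of_tendsto_of_tendsto_of_le_of_le tendsto_const_nhds h1 ?_ ?_
  · intro k
    exact Real.one_le_rpow (sSup_ge k) (by positivity)
  · intro k
    exact Real.rpow_le_rpow (by linarith [sSup_ge k]) (sSup_le k) (by positivity)

/-- the unbounded trajectory -/
def traj (k : ℕ) : Fin 2 → ℝ := ![Real.log (L k), 1 / L k]

lemma traj_isTrajectory : IsTrajectory fam traj := by
  refine ⟨M, fun k => Set.mem_insert_of_mem _ ⟨k, rfl⟩, fun k => ?_⟩
  have h1 := (L_pos k).ne'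
  have h2 := (L_pos (k + 1)).ne'
  funext i
  fin_cases i
  · show Real.log (L (k + 1)) = _
    have : ((M k).mulVec (traj k)) 0 = Real.log (L k) + s k * (1 / L k) := by
      simp [M, Matrix.mulVec, dotProduct, Fin.sum_univ_two, traj]
    show _ = ((M k).mulVec (traj k)) 0
    rw [this]
    unfold s
    rw [Real.log_div h2 h1]
    field_simp
    ring
  · show 1 / L (k + 1) = _
    have : ((M k).mulVec (traj k)) 1 = (1 - dl k) * (1 / L k) := by
      simp [M, Matrix.mulVec, dotProduct, Fin.sum_univ_two, traj]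
    show _ = ((M k).mulVec (traj k)) 1
    rw [this]
    unfold dl
    field_simp
    ring

lemma L_tendsto : Tendsto L atTop atTop := by
  unfold L
  apply tendsto_atTop_add_const_left
  apply Real.tendsto_log_atTop.comp
  exact tendsto_atTop_add_const_right _ _ tendsto_natCast_atTop_atTop

lemma traj_unbounded : ¬ ∃ C : ℝ, ∀ k, ‖traj k‖ ≤ C := by
  rintro ⟨C, hC⟩
  have h1 : Tendsto (fun k => Real.log (L k)) atTop atTop := Real.tendsto_log_atTop.comp L_tendsto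
  obtain ⟨k, hk⟩ := (h1.eventually_gt_atTop C).exists
  have h2 : ‖traj k 0‖ ≤ ‖traj k‖ := norm_le_pi_norm (traj k) 0
  have h3 : traj k 0 = Real.log (L k) := rfl
  rw [h3] at h2
  have h4 := (le_abs_self (Real.log (L k)))
  rw [← Real.norm_eq_abs] at h4
  linarith [hC k]

lemma subpoly : Subpolynomial fam := by
  intro x hx α hα
  refine ⟨4 * (1 + 2 ^ α / α) * ‖x 0‖, fun k hk => ?_⟩
  have hk' : (1 : ℝ) ≤ k := by exact_mod_cast hk
  have h1 : ‖x k‖ ≤ 4 * (1 + Real.log ((k : ℝ) + 1)) * ‖x 0‖ :=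
    (traj_norm hx k).trans (mul_le_mul_of_nonneg_right (G_le k) (norm_nonneg _))
  refine h1.trans ?_
  have h2 : Real.log ((k : ℝ) + 1) ≤ ((k : ℝ) + 1) ^ α / α :=
    Real.log_le_rpow_div (by positivity) hα
  have h3 : ((k : ℝ) + 1) ^ α ≤ 2 ^ α * (k : ℝ) ^ α := by
    rw [← Real.mul_rpow (by norm_num) (by positivity)]
    exact Real.rpow_le_rpow (by positivity) (by linarith) hα.le
  have h4 : 1 ≤ (k : ℝ) ^ α := Real.one_le_rpow hk' hα.le
  have h5 : 1 + Real.log ((k : ℝ) + 1) ≤ (1 + 2 ^ α / α) * (k : ℝ) ^ α := by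
    have h6 : ((k : ℝ) + 1) ^ α / α ≤ 2 ^ α * (k : ℝ) ^ α / α :=
      div_le_div_of_nonneg_right h3 hα.le
    have h7 : (1 + 2 ^ α / α) * (k : ℝ) ^ α = (k : ℝ) ^ α + 2 ^ α * (k : ℝ) ^ α / α := by ring
    rw [h7]
    linarith
  calc 4 * (1 + Real.log ((k : ℝ) + 1)) * ‖x 0‖
      ≤ 4 * ((1 + 2 ^ α / α) * (k : ℝ) ^ α) * ‖x 0‖ := by
        apply mul_le_mul_of_nonneg_right _ (norm_nonneg _)
        linarith
    _ = 4 * (1 + 2 ^ α / α) * ‖x 0‖ * (k : ℝ) ^ α := by ring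

/-- There is a nonempty compact set of real `2 × 2` matrices whose discrete-time switching system
is marginally unstable and has subpolynomial growth; in fact every trajectory satisfies
`‖x(k)‖ ≤ 4 (1 + log (k+1)) ‖x(0)‖`. -/
theorem result :
    ∃ 𝒜 : Set (Matrix (Fin 2) (Fin 2) ℝ), 𝒜.Nonempty ∧ IsCompact 𝒜 ∧
      MarginallyUnstable 𝒜 ∧ Subpolynomial 𝒜 ∧
      ∀ x, IsTrajectory 𝒜 x → ∀ k : ℕ, ‖x k‖ ≤ 4 * (1 + Real.log ((k : ℝ) + 1)) * ‖x 0‖ := by
  refine ⟨fam, ⟨1, Set.mem_insert _ _⟩, fam_compact, ⟨hasJSR, fun h => ?_⟩, subpoly, ?_⟩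
  · exact traj_unbounded (h traj traj_isTrajectory)
  · intro x hx k
    exact (traj_norm hx k).trans (mul_le_mul_of_nonneg_right (G_le k) (norm_nonneg _))

end

end Pool.Agent.Results.MP_653f52_an.LogGrowth
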